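import Pool.Agent.TH6.NC.SchurMain

/-!
# The noncommutative sign conjecture for Schur functors and tensor products

The definitions are in `Pool/Agent/TH6/NC/Defs.lean`.  A `SuperTheory K` records what a symmetric
monoidal functor `H` from a `ℚ`-linear rigid symmetric monoidal category to finite dimensional super
vector spaces over the field `K` of characteristic `0` gives on endomorphisms: for every object `A`
a homogeneous basis `ι A` of `H(A)` with the parities `sg A`, and the `ℚ`-algebra `Alg A` of the
matrices of the `H(f)`, `f ∈ End(A)`.  It contains the tensor products of its members, the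
permutations of the factors of `A ^ n` (with the Koszul signs), and the partial super traces.

Example: noncommutative Chow motives `U(𝒜)_ℚ` of smooth proper dg categories over a perfect field
`k`, with `H = HP_±` (`char k = 0`) or `H = TP_±(-)_{1/p}` (`char k = p`).  (As objects one takes
formal tensor words, so that the product bases can be chosen.)

`Sign A` is the statement `C⁺_nc(A)`: the parity operator `π₊ - π₋` of `H(A)` is algebraic.  For
`c : Perm (Fin (n + 1)) → ℚ`, `schur A B c` is the operator on `H(A) ^ (n + 1) ⊗ H(B)` given by the
element `e = ∑ c σ • σ` of `ℚ[S_(n+1)]`.  If `e` is an idempotent then it cuts out the direct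
summand `e (A ^ (n + 1)) ⊗ B` of `A ^ (n + 1) ⊗ B`, for instance `S_λ(A) ⊗ B`, and
`SignSummand _ (schur A B c)` is the statement `C⁺_nc` for this summand.

Idea of the proof.  If `(e · parity) ⊗ parity` is algebraic then so is `(eᵀe · parity) ⊗ parity`;
its partial super traces are `dim H(B)` times `eᵀe · parity` and `tr(eᵀe) > 0` times the parity
operator of `H(B)`.  The partial super trace of `eᵀe · parity` over all factors of `A ^ (n + 1)` but
one is equal to `c₁` on the even part and to `- c₂` on the odd part of `H(A)`, where `c₁, c₂ ≥ 0`
are rational numbers (sums of diagonal entries of the positive semidefinite matrix `eᵀe`), which are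
not both `0`.
-/

set_option autoImplicit false

namespace Pool.Agent.Results.MP_8f22fa_ag.SchurTimes

open Pool.Agent.TH6.NC

/-- **`C⁺_nc(S_λ(A) ⊗ B)` holds if and only if `C⁺_nc(A)` and `C⁺_nc(B)` hold**, whenever the
realisation of `S_λ(A) ⊗ B` is not zero; more generally for every element of the group algebra
`ℚ[S_(n+1)]` in place of the idempotent of `λ`. -/
theorem result {K : Type} [Field K] [CharZero K] (T : SuperTheory K) (A B : T.Obj) {n : ℕ}
    (c : Equiv.Perm (Fin (n + 1)) → ℚ) (hc : T.schur A B c ≠ 0) :
    T.SignSummand (T.prod (T.pow A (n + 1)) B) (T.schur A B c) ↔ T.Sign A ∧ T.Sign B :=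
  T.sign_iff A B c hc

end Pool.Agent.Results.MP_8f22fa_ag.SchurTimes
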